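import Mathlib

/-!
# MP_94c361_co: the Beta integral at natural numbers and the sum over one vertex
-/

set_option autoImplicit false

open scoped BigOperators

namespace Pool.Agent.MP94c

theorem beta_nat (b : ℕ) : ∀ a : ℕ, ∫ t in (0 : ℝ)..1, t ^ a * (1 - t) ^ b =
    (a.factorial : ℝ) * b.factorial / (a + b + 1).factorial := by
  induction b with
  | zero =>
    intro a
    have h1 : ((a : ℝ) + 1) ≠ 0 := by positivity
    have h2 : (a.factorial : ℝ) ≠ 0 := by positivity
    simp only [pow_zero, mul_one, integral_pow, Nat.factorial_zero, Nat.cast_one, add_zero,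
      Nat.factorial_succ, Nat.cast_mul, Nat.cast_add]
    field_simp
    simp
  | succ b ih =>
    intro a
    have h1 : ∀ t ∈ Set.uIcc (0 : ℝ) 1, HasDerivAt (fun t : ℝ => t ^ (a + 1) * (1 - t) ^ (b + 1))
        (((a : ℝ) + 1) * (t ^ a * (1 - t) ^ (b + 1)) -
          ((b : ℝ) + 1) * (t ^ (a + 1) * (1 - t) ^ b)) t := by
      intro t _
      have h2 : HasDerivAt (fun t : ℝ => t ^ (a + 1)) (((a + 1 : ℕ) : ℝ) * t ^ a) t := by
        simpa using hasDerivAt_pow (a + 1) t
      have h3 : HasDerivAt (fun t : ℝ => (1 - t) ^ (b + 1))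
          (((b + 1 : ℕ) : ℝ) * (1 - t) ^ b * (-1)) t := by
        have h4 : HasDerivAt (fun t : ℝ => 1 - t) (-1) t := by
          simpa using (hasDerivAt_id t).const_sub 1
        have h6 := h4.fun_pow (b + 1)
        simpa using h6
      have h5 := h2.mul h3
      refine h5.congr_deriv ?_
      push_cast
      ring
    have h2 := intervalIntegral.integral_eq_sub_of_hasDerivAt h1
      (Continuous.intervalIntegrable (by fun_prop) _ _)
    rw [intervalIntegral.integral_sub (Continuous.intervalIntegrable (by fun_prop) _ _)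
      (Continuous.intervalIntegrable (by fun_prop) _ _),
      intervalIntegral.integral_const_mul, intervalIntegral.integral_const_mul, ih (a + 1)] at h2
    have h3 : ((a : ℝ) + 1) ≠ 0 := by positivity
    have h4 : (a + (b + 1) + 1) = (a + 1 + b + 1) := by ring
    rw [h4]
    have h5 : ((a + 1 + b + 1).factorial : ℝ) ≠ 0 := by positivity
    have h6 : ((a : ℝ) + 1) * (∫ t in (0 : ℝ)..1, t ^ a * (1 - t) ^ (b + 1)) =
        ((b : ℝ) + 1) * (((a + 1).factorial : ℝ) * b.factorial / (a + 1 + b + 1).factorial) := by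
      have h7 : (1 : ℝ) ^ (a + 1) * (1 - 1) ^ (b + 1) - 0 ^ (a + 1) * (1 - 0) ^ (b + 1) = 0 := by
        simp
      rw [h7] at h2
      linarith
    apply mul_left_cancel₀ h3
    rw [h6, Nat.factorial_succ a, Nat.factorial_succ b]
    push_cast
    ring

/-- The labellings of the four half-edges at a vertex with two chosen ones. -/
def two : Finset (Fin 4 → Bool) :=
  Finset.univ.filter (fun p => (Finset.univ.filter (fun i => p i = true)).card = 2)

/-- The number of half-edges chosen twice. -/
def ov (g : (Fin 4 → Bool) × (Fin 4 → Bool)) : ℕ :=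
  (Finset.univ.filter (fun i => g.1 i = true ∧ g.2 i = true)).card

/-- The weight. -/
def w (t : ℝ) (p q : Bool) : ℝ := (if p && q then t else 1) * (if p && !q then t - 1 else 1)

theorem img : (two ×ˢ two).image ov = {0, 1, 2} := by decide +kernel

theorem c0 : ((two ×ˢ two).filter (fun g => ov g = 0)).card = 6 := by decide +kernel

theorem c1 : ((two ×ˢ two).filter (fun g => ov g = 1)).card = 24 := by decide +kernel

theorem c2 : ((two ×ˢ two).filter (fun g => ov g = 2)).card = 6 := by decide +kernel

theorem cnot : ∀ g ∈ two ×ˢ two,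
    (Finset.univ.filter (fun i => g.1 i = true ∧ g.2 i = false)).card = 2 - ov g := by
  decide +kernel

theorem prod_w (t : ℝ) (g : (Fin 4 → Bool) × (Fin 4 → Bool)) (hg : g ∈ two ×ˢ two) :
    ∏ i, w t (g.1 i) (g.2 i) = t ^ ov g * (t - 1) ^ (2 - ov g) := by
  unfold w
  rw [Finset.prod_mul_distrib, ← Finset.prod_filter, ← Finset.prod_filter, Finset.prod_const,
    Finset.prod_const, ← cnot g hg]
  unfold ov
  simp only [Bool.and_eq_true, Bool.not_eq_true']

theorem vertex_sum (t : ℝ) :
    ∑ g ∈ two ×ˢ two, ∏ i, w t (g.1 i) (g.2 i) = 6 * (1 - 6 * t + 6 * t ^ 2) := by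
  rw [Finset.sum_congr rfl (fun g hg => prod_w t g hg)]
  have h1 := Finset.sum_comp (s := two ×ˢ two) (fun k : ℕ => t ^ k * (t - 1) ^ (2 - k)) ov
  rw [h1, img]
  rw [Finset.sum_insert (by decide), Finset.sum_insert (by decide), Finset.sum_singleton, c0, c1,
    c2]
  simp only [nsmul_eq_mul]
  push_cast
  ring

end Pool.Agent.MP94c
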