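import Mathlib

/-!
# MP_94c361_co: the number of pairings compatible with two labellings
-/

set_option autoImplicit false

open scoped BigOperators

namespace Pool.Agent.MP94c

variable {H : Type} [DecidableEq H]

/-- The half-edges with given labels. -/
abbrev Sec (ε ε' : H → Bool) (p q : Bool) : Type := {h : H // ε h = p ∧ ε' h = q}

/-- The involution glued from two bijections. -/
def glue (ε ε' : H → Bool) (e1 : Sec ε ε' true true ≃ Sec ε ε' false false)
    (e2 : Sec ε ε' true false ≃ Sec ε ε' false true) (h : H) : H :=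
  if h1 : ε h = true ∧ ε' h = true then (e1 ⟨h, h1⟩ : H)
  else if h2 : ε h = false ∧ ε' h = false then (e1.symm ⟨h, h2⟩ : H)
  else if h3 : ε h = true ∧ ε' h = false then (e2 ⟨h, h3⟩ : H)
  else if h4 : ε h = false ∧ ε' h = true then (e2.symm ⟨h, h4⟩ : H)
  else h

section

variable {ε ε' : H → Bool} (e1 : Sec ε ε' true true ≃ Sec ε ε' false false)
    (e2 : Sec ε ε' true false ≃ Sec ε ε' false true)

omit [DecidableEq H] in
theorem glue11 (x : Sec ε ε' true true) : glue ε ε' e1 e2 x.1 = (e1 x : H) := by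
  unfold glue
  rw [dif_pos x.2]

omit [DecidableEq H] in
theorem glue00 (x : Sec ε ε' false false) : glue ε ε' e1 e2 x.1 = (e1.symm x : H) := by
  unfold glue
  rw [dif_neg (by rw [x.2.1]; simp), dif_pos x.2]

omit [DecidableEq H] in
theorem glue10 (x : Sec ε ε' true false) : glue ε ε' e1 e2 x.1 = (e2 x : H) := by
  unfold glue
  rw [dif_neg (by rw [x.2.2]; simp), dif_neg (by rw [x.2.1]; simp), dif_pos x.2]

omit [DecidableEq H] in
theorem glue01 (x : Sec ε ε' false true) : glue ε ε' e1 e2 x.1 = (e2.symm x : H) := by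
  unfold glue
  rw [dif_neg (by rw [x.2.1]; simp), dif_neg (by rw [x.2.2]; simp),
    dif_neg (by rw [x.2.1]; simp), dif_pos x.2]

omit [DecidableEq H] in
theorem glue_all (h : H) : glue ε ε' e1 e2 (glue ε ε' e1 e2 h) = h ∧
    ε (glue ε ε' e1 e2 h) = !ε h ∧ ε' (glue ε ε' e1 e2 h) = !ε' h := by
  rcases h1 : ε h with _ | _ <;> rcases h2 : ε' h with _ | _
  · have h3 := glue00 e1 e2 ⟨h, h1, h2⟩
    have h4 := glue11 e1 e2 (e1.symm ⟨h, h1, h2⟩)
    rw [h3]
    refine ⟨?_, (e1.symm ⟨h, h1, h2⟩).2.1, (e1.symm ⟨h, h1, h2⟩).2.2⟩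
    rw [h4, Equiv.apply_symm_apply]
  · have h3 := glue01 e1 e2 ⟨h, h1, h2⟩
    have h4 := glue10 e1 e2 (e2.symm ⟨h, h1, h2⟩)
    rw [h3]
    refine ⟨?_, (e2.symm ⟨h, h1, h2⟩).2.1, (e2.symm ⟨h, h1, h2⟩).2.2⟩
    rw [h4, Equiv.apply_symm_apply]
  · have h3 := glue10 e1 e2 ⟨h, h1, h2⟩
    have h4 := glue01 e1 e2 (e2 ⟨h, h1, h2⟩)
    rw [h3]
    refine ⟨?_, (e2 ⟨h, h1, h2⟩).2.1, (e2 ⟨h, h1, h2⟩).2.2⟩
    rw [h4, Equiv.symm_apply_apply]
  · have h3 := glue11 e1 e2 ⟨h, h1, h2⟩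
    have h4 := glue00 e1 e2 (e1 ⟨h, h1, h2⟩)
    rw [h3]
    refine ⟨?_, (e1 ⟨h, h1, h2⟩).2.1, (e1 ⟨h, h1, h2⟩).2.2⟩
    rw [h4, Equiv.symm_apply_apply]

end

/-- The bijection given by the restriction of an involution which flips both labels. -/
def restr {ε ε' : H → Bool} {σ : Equiv.Perm H} (h1 : ∀ h, σ (σ h) = h)
    (h2 : ∀ h, ε (σ h) = !ε h) (h3 : ∀ h, ε' (σ h) = !ε' h) (p q : Bool) :
    Sec ε ε' p q ≃ Sec ε ε' (!p) (!q) where
  toFun x := ⟨σ x.1, by rw [h2, x.2.1], by rw [h3, x.2.2]⟩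
  invFun y := ⟨σ y.1, by rw [h2, y.2.1, Bool.not_not], by rw [h3, y.2.2, Bool.not_not]⟩
  left_inv x := Subtype.ext (h1 x.1)
  right_inv y := Subtype.ext (h1 y.1)

/-- Involutions which flip both labels are pairs of bijections. -/
def pairEquiv (ε ε' : H → Bool) :
    {σ : Equiv.Perm H // (∀ h, σ (σ h) = h) ∧ (∀ h, ε (σ h) = !ε h) ∧ (∀ h, ε' (σ h) = !ε' h)} ≃
      (Sec ε ε' true true ≃ Sec ε ε' false false) ×
        (Sec ε ε' true false ≃ Sec ε ε' false true) where
  toFun σ := (restr σ.2.1 σ.2.2.1 σ.2.2.2 true true, restr σ.2.1 σ.2.2.1 σ.2.2.2 true false)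
  invFun e := ⟨⟨glue ε ε' e.1 e.2, glue ε ε' e.1 e.2, fun h => (glue_all e.1 e.2 h).1,
    fun h => (glue_all e.1 e.2 h).1⟩, fun h => (glue_all e.1 e.2 h).1,
    fun h => (glue_all e.1 e.2 h).2.1, fun h => (glue_all e.1 e.2 h).2.2⟩
  left_inv := by
    rintro ⟨σ, h1, h2, h3⟩
    apply Subtype.ext
    apply Equiv.ext
    intro h
    show glue ε ε' (restr h1 h2 h3 true true) (restr h1 h2 h3 true false) h = σ h
    rcases h4 : ε h with _ | _ <;> rcases h5 : ε' h with _ | _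
    · exact glue00 _ _ ⟨h, h4, h5⟩
    · exact glue01 _ _ ⟨h, h4, h5⟩
    · exact glue10 _ _ ⟨h, h4, h5⟩
    · exact glue11 _ _ ⟨h, h4, h5⟩
  right_inv := by
    rintro ⟨e1, e2⟩
    refine Prod.ext ?_ ?_
    · apply Equiv.ext
      intro x
      exact Subtype.ext (glue11 e1 e2 x)
    · apply Equiv.ext
      intro x
      exact Subtype.ext (glue10 e1 e2 x)

theorem card_pairs [Fintype H] (ε ε' : H → Bool) (a b : ℕ)
    (h11 : (Finset.univ.filter (fun h => ε h = true ∧ ε' h = true)).card = a)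
    (h00 : (Finset.univ.filter (fun h => ε h = false ∧ ε' h = false)).card = a)
    (h10 : (Finset.univ.filter (fun h => ε h = true ∧ ε' h = false)).card = b)
    (h01 : (Finset.univ.filter (fun h => ε h = false ∧ ε' h = true)).card = b) :
    (Finset.univ.filter (fun σ : Equiv.Perm H => (∀ h, σ (σ h) = h) ∧ (∀ h, ε (σ h) = !ε h) ∧
      (∀ h, ε' (σ h) = !ε' h))).card = a.factorial * b.factorial := by
  have c11 : Fintype.card (Sec ε ε' true true) = a := by rw [Fintype.card_subtype, h11]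
  have c00 : Fintype.card (Sec ε ε' false false) = a := by rw [Fintype.card_subtype, h00]
  have c10 : Fintype.card (Sec ε ε' true false) = b := by rw [Fintype.card_subtype, h10]
  have c01 : Fintype.card (Sec ε ε' false true) = b := by rw [Fintype.card_subtype, h01]
  rw [← Fintype.card_subtype, Fintype.card_congr (pairEquiv ε ε'), Fintype.card_prod,
    Fintype.card_equiv (Fintype.equivOfCardEq (c11.trans c00.symm)),
    Fintype.card_equiv (Fintype.equivOfCardEq (c10.trans c01.symm)), c11, c10]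

end Pool.Agent.MP94c
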