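import Pool.Agent.Lib.MP_94c361_co_M.Main

/-!
# MP_94c361_co: the number of pairings, and the number of Eulerian orientations
-/

set_option autoImplicit false

open scoped BigOperators

namespace Pool.Agent.MP94c

variable {n : ℕ}

theorem mem_pairings_iff (σ : Equiv.Perm (Fin n × Fin 4)) :
    σ ∈ pairings n ↔ σ.cycleType = Multiset.replicate (2 * n) 2 := by
  have hc : Fintype.card (Fin n × Fin 4) = n * 4 := by simp
  constructor
  · intro hσ
    have h1 := (Finset.mem_filter.1 hσ).2
    have h2 : σ ^ 2 = 1 := by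
      ext1 h
      rw [sq, Equiv.Perm.mul_apply, (h1 h).1]
      rfl
    have h3 := Equiv.Perm.cycleType_of_pow_prime_eq_one (p := 2) h2
    have h4 : σ.support = Finset.univ := by
      ext h
      simp only [Equiv.Perm.mem_support, Finset.mem_univ, iff_true]
      exact (h1 h).2
    have h5 := σ.sum_cycleType
    rw [h3, Multiset.sum_replicate, h4, Finset.card_univ, hc, smul_eq_mul] at h5
    rw [h3]
    congr 1
    omega
  · intro hσ
    have h2 : σ ^ 2 = 1 := by
      rw [Equiv.Perm.pow_prime_eq_one_iff, hσ]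
      intro c hc
      exact Multiset.eq_of_mem_replicate hc
    have h5 := σ.sum_cycleType
    rw [hσ, Multiset.sum_replicate, smul_eq_mul] at h5
    have h4 : σ.support = Finset.univ := by
      rw [← Finset.card_eq_iff_eq_univ, ← h5, hc]
      ring
    refine Finset.mem_filter.2 ⟨Finset.mem_univ _, fun h => ⟨?_, ?_⟩⟩
    · have h6 := congrArg (fun τ : Equiv.Perm (Fin n × Fin 4) => τ h) h2
      simpa [sq, Equiv.Perm.mul_apply] using h6
    · have h6 : h ∈ σ.support := by
        rw [h4]
        exact Finset.mem_univ _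
      exact Equiv.Perm.mem_support.1 h6

theorem card_pairings (n : ℕ) :
    (pairings n).card * (4 ^ n * (2 * n).factorial) = (4 * n).factorial := by
  have h1 : pairings n = Finset.univ.filter (fun σ : Equiv.Perm (Fin n × Fin 4) =>
      σ.cycleType = Multiset.replicate (2 * n) 2) := by
    ext σ
    rw [mem_pairings_iff, Finset.mem_filter]
    simp
  have h2 := Equiv.Perm.card_of_cycleType_mul_eq (Fin n × Fin 4) (Multiset.replicate (2 * n) 2)
  have hc : Fintype.card (Fin n × Fin 4) = n * 4 := by simp
  have h3 : (Multiset.replicate (2 * n) 2).sum = n * 4 := by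
    rw [Multiset.sum_replicate, smul_eq_mul]
    ring
  rw [h1]
  rw [if_pos ⟨by rw [h3, hc], fun a ha => (Multiset.eq_of_mem_replicate ha).ge⟩, h3, hc,
    Nat.sub_self, Multiset.prod_replicate] at h2
  have h4 : (∏ k ∈ (Multiset.replicate (2 * n) 2).toFinset,
      ((Multiset.replicate (2 * n) 2).count k).factorial) = (2 * n).factorial := by
    rcases Nat.eq_zero_or_pos n with rfl | hn
    · simp
    · rw [Multiset.toFinset_replicate, if_neg (by omega), Finset.prod_singleton,
        Multiset.count_replicate_self]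
  rw [h4, pow_mul, mul_comm n 4, Nat.factorial_zero, one_mul] at h2
  norm_num at h2
  convert h2 using 3

/-- The number of Eulerian orientations: one half-edge of each pair is the tail, and each vertex
has two tails. -/
def eo (σ : Equiv.Perm (Fin n × Fin 4)) : ℕ :=
  (Finset.univ.filter (fun ε : Fin n × Fin 4 → Bool =>
    (∀ h, ε (σ h) = !ε h) ∧
      ∀ v, (Finset.univ.filter (fun h : Fin n × Fin 4 => h.1 = v ∧ ε h = true)).card = 2)).card

theorem card_bal (n : ℕ) : (Finset.univ.filter (fun ε : Fin n × Fin 4 → Bool =>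
    Bal (Prod.fst : Fin n × Fin 4 → Fin n) ε)).card = 6 ^ n := by
  have h1 : (Fintype.piFinset (fun _ : Fin n => two)).card = 6 ^ n := by
    have h2 : two.card = 6 := by decide +kernel
    rw [Fintype.card_piFinset, Finset.prod_const, h2]
    simp
  rw [← h1]
  refine Finset.card_bij' (fun e _ => fun v => fun i => e (v, i)) (fun g _ => fun h => g h.1 h.2)
    ?_ ?_ ?_ ?_
  · intro e he
    rw [Fintype.mem_piFinset]
    intro v
    refine Finset.mem_filter.2 ⟨Finset.mem_univ _, ?_⟩
    rw [← (Finset.mem_filter.1 he).2 v, card_vertex]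
  · intro g hg
    rw [Fintype.mem_piFinset] at hg
    refine Finset.mem_filter.2 ⟨Finset.mem_univ _, fun v => ?_⟩
    rw [card_vertex]
    exact (Finset.mem_filter.1 (hg v)).2
  · intro e _
    rfl
  · intro g _
    rfl

theorem sum_eo (n : ℕ) : ∑ σ ∈ pairings n, eo σ = 6 ^ n * (2 * n).factorial := by
  have h1 : ∀ σ ∈ pairings n, eo σ = ∑ ε ∈ Finset.univ.filter (fun ε : Fin n × Fin 4 → Bool =>
      Bal (Prod.fst : Fin n × Fin 4 → Fin n) ε), if (∀ h, ε (σ h) = !ε h) then 1 else 0 := by
    intro σ _
    unfold eo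
    rw [Finset.sum_boole, Finset.filter_filter, Nat.cast_id]
    exact congrArg _ (Finset.filter_congr fun ε _ => and_comm)
  rw [Finset.sum_congr rfl h1, Finset.sum_comm]
  have h2 : ∀ ε ∈ Finset.univ.filter (fun ε : Fin n × Fin 4 → Bool =>
      Bal (Prod.fst : Fin n × Fin 4 → Fin n) ε),
      (∑ σ ∈ pairings n, if (∀ h, ε (σ h) = !ε h) then 1 else 0) = (2 * n).factorial := by
    intro ε hε
    have hε' := (Finset.mem_filter.1 hε).2
    obtain ⟨a, b, hab, h11, h00, h10, h01⟩ := counts ε ε hε' hε'
    have hb : b = 0 := by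
      rw [← h10, Finset.card_eq_zero, Finset.filter_eq_empty_iff]
      intro h _ h3
      rw [h3.1] at h3
      exact absurd h3.2 (by simp)
    subst hb
    have h4 := card_pairs ε ε a 0 h11 h00 h10 h01
    rw [Nat.add_zero] at hab
    subst hab
    rw [Nat.factorial_zero, mul_one] at h4
    rw [← h4, Finset.sum_boole, Nat.cast_id]
    refine congrArg _ ?_
    ext σ
    unfold pairings
    simp only [Finset.mem_filter, Finset.mem_univ, true_and, and_self]
    constructor
    · rintro ⟨h2, h3⟩
      exact ⟨fun h => (h2 h).1, h3⟩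
    · rintro ⟨h2, h3⟩
      refine ⟨fun h => ⟨h2 h, fun h5 => ?_⟩, h3⟩
      have h6 := h3 h
      rw [h5] at h6
      cases h7 : ε h <;> simp [h7] at h6
  rw [Finset.sum_congr rfl h2, Finset.sum_const, card_bal, smul_eq_mul]

end Pool.Agent.MP94c
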