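import Mathlib

/-!
# MP_94c361_co: expansion of the graph polynomial of a pairing of half-edges
-/

set_option autoImplicit false

open scoped BigOperators

namespace Pool.Agent.MP94c

variable {H V : Type} [Fintype H] [DecidableEq H] [Fintype V] [DecidableEq V]

/-- The sum over a transversal. -/
theorem prod_split {M : Type} [CommMonoid M] (σ : Equiv.Perm H) (hσ : ∀ h, σ (σ h) = h)
    (L : Finset H) (hL : ∀ h, h ∈ L ↔ σ h ∉ L) (s : H → M) :
    ∏ h, s h = ∏ h ∈ L, (s h * s (σ h)) := by
  have h1 : (Finset.univ : Finset H) = L ∪ L.image σ := by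
    ext h
    simp only [Finset.mem_univ, Finset.mem_union, Finset.mem_image, true_iff]
    by_cases hh : h ∈ L
    · exact Or.inl hh
    · right
      refine ⟨σ h, ?_, hσ h⟩
      rw [hL, hσ]
      exact hh
  have h2 : Disjoint L (L.image σ) := by
    rw [Finset.disjoint_left]
    intro h hh h3
    obtain ⟨g, hg, rfl⟩ := Finset.mem_image.1 h3
    exact ((hL g).1 hg) hh
  rw [h1, Finset.prod_union h2, Finset.prod_image (fun x _ y _ h => σ.injective h),
    Finset.prod_mul_distrib]

/-- Which half-edges are chosen, from the chosen part of the transversal. -/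
def epsOf (σ : Equiv.Perm H) (L t : Finset H) : H → Bool :=
  fun h => if h ∈ L then decide (h ∈ t) else !decide (σ h ∈ t)

theorem epsOf_compat (σ : Equiv.Perm H) (hσ : ∀ h, σ (σ h) = h)
    (L : Finset H) (hL : ∀ h, h ∈ L ↔ σ h ∉ L) (t : Finset H) (h : H) :
    epsOf σ L t (σ h) = !epsOf σ L t h := by
  unfold epsOf
  by_cases hh : h ∈ L
  · rw [if_neg ((hL h).1 hh), if_pos hh, hσ]
  · have h1 : σ h ∈ L := by
      rw [hL, hσ]
      exact hh
    rw [if_pos h1, if_neg hh, Bool.not_not]

/-- The expansion of the product over the edges. -/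
theorem expand {R : Type} [CommRing R] (σ : Equiv.Perm H) (hσ : ∀ h, σ (σ h) = h)
    (L : Finset H) (hL : ∀ h, h ∈ L ↔ σ h ∉ L) (x : H → R) :
    ∏ h ∈ L, (x h - x (σ h)) =
      ∑ ε ∈ Finset.univ.filter (fun ε : H → Bool => ∀ h, ε (σ h) = !ε h),
        (∏ h ∈ L, (if ε h then (1 : R) else -1)) * ∏ h, (if ε h then x h else 1) := by
  have h1 : ∀ h ∈ L, x h - x (σ h) = x h + (-1) * x (σ h) := by
    intro h _
    ring
  rw [Finset.prod_congr rfl h1, Finset.prod_add]
  refine Finset.sum_bij' (fun t _ => epsOf σ L t) (fun ε _ => L.filter (fun h => ε h = true))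
    ?_ ?_ ?_ ?_ ?_
  · intro t _
    exact Finset.mem_filter.2 ⟨Finset.mem_univ _, epsOf_compat σ hσ L hL t⟩
  · intro ε _
    exact Finset.mem_powerset.2 (Finset.filter_subset _ _)
  · intro t ht
    have ht' := Finset.mem_powerset.1 ht
    ext h
    rw [Finset.mem_filter]
    constructor
    · rintro ⟨h2, h3⟩
      unfold epsOf at h3
      rw [if_pos h2] at h3
      exact of_decide_eq_true h3
    · intro h2
      refine ⟨ht' h2, ?_⟩
      unfold epsOf
      rw [if_pos (ht' h2)]
      exact decide_eq_true h2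
  · intro ε hε
    have hε' := (Finset.mem_filter.1 hε).2
    funext h
    unfold epsOf
    by_cases hh : h ∈ L
    · rw [if_pos hh]
      simp [hh]
    · have h2 : σ h ∈ L := by
        rw [hL, hσ]
        exact hh
      rw [if_neg hh]
      have h3 := hε' h
      simp [h2, h3]
  · intro t ht
    have ht' := Finset.mem_powerset.1 ht
    rw [prod_split σ hσ L hL, ← Finset.prod_mul_distrib, ← Finset.prod_sdiff ht', mul_comm]
    congr 1
    · refine Finset.prod_congr rfl fun h hh => ?_
      obtain ⟨h2, h3⟩ := Finset.mem_sdiff.1 hh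
      have h4 : epsOf σ L t h = false := by
        unfold epsOf
        rw [if_pos h2]
        exact decide_eq_false h3
      have h5 : epsOf σ L t (σ h) = true := by
        rw [epsOf_compat σ hσ L hL, h4]
        rfl
      rw [h4, h5]
      simp
    · refine Finset.prod_congr rfl fun h hh => ?_
      have h4 : epsOf σ L t h = true := by
        unfold epsOf
        rw [if_pos (ht' hh)]
        exact decide_eq_true hh
      have h5 : epsOf σ L t (σ h) = false := by
        rw [epsOf_compat σ hσ L hL, h4]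
        rfl
      rw [h4, h5]
      simp

/-- Each vertex has exactly two chosen half-edges. -/
def Bal (f : H → V) (ε : H → Bool) : Prop :=
  ∀ v, (Finset.univ.filter (fun h => f h = v ∧ ε h = true)).card = 2

instance (f : H → V) : DecidablePred (Bal f) := fun _ => inferInstanceAs (Decidable (∀ _, _))

theorem coeff_prod (f : H → V) (ε : H → Bool) :
    MvPolynomial.coeff (Finsupp.equivFunOnFinite.symm (fun _ : V => 2))
      (∏ h, (if ε h then (MvPolynomial.X (f h) : MvPolynomial V ℤ) else 1)) =
      if Bal f ε then 1 else 0 := by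
  have h1 : ∏ h, (if ε h then (MvPolynomial.X (f h) : MvPolynomial V ℤ) else 1) =
      MvPolynomial.monomial (∑ h ∈ Finset.univ.filter (fun h => ε h = true),
        Finsupp.single (f h) 1) 1 := by
    rw [MvPolynomial.monomial_sum_one, Finset.prod_filter]
    rfl
  rw [h1, MvPolynomial.coeff_monomial]
  have h2 : (∑ h ∈ Finset.univ.filter (fun h => ε h = true), Finsupp.single (f h) 1 =
      Finsupp.equivFunOnFinite.symm (fun _ : V => 2)) ↔ Bal f ε := by
    unfold Bal
    rw [Finsupp.ext_iff]
    refine forall_congr' fun v => ?_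
    rw [Finsupp.finsetSum_apply]
    simp only [Finsupp.single_apply, Finset.sum_boole, Finset.filter_filter,
      Finsupp.equivFunOnFinite_symm_apply_apply, Nat.cast_id]
    rw [Finset.filter_congr (fun h _ => and_comm)]
  by_cases h3 : Bal f ε
  · rw [if_pos (h2.2 h3), if_pos h3]
  · rw [if_neg (fun h => h3 (h2.1 h)), if_neg h3]

/-- The coefficient as a signed count. -/
theorem coeff_eq (f : H → V) (σ : Equiv.Perm H) (hσ : ∀ h, σ (σ h) = h)
    (L : Finset H) (hL : ∀ h, h ∈ L ↔ σ h ∉ L) :
    MvPolynomial.coeff (Finsupp.equivFunOnFinite.symm (fun _ : V => 2))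
      (∏ h ∈ L, ((MvPolynomial.X (f h) : MvPolynomial V ℤ) - MvPolynomial.X (f (σ h)))) =
      ∑ ε ∈ Finset.univ.filter (fun ε : H → Bool => Bal f ε),
        (if ∀ h, ε (σ h) = !ε h then ∏ h ∈ L, (if ε h then (1 : ℤ) else -1) else 0) := by
  rw [expand σ hσ L hL (fun h => (MvPolynomial.X (f h) : MvPolynomial V ℤ)),
    MvPolynomial.coeff_sum]
  have h1 : ∀ ε : H → Bool, MvPolynomial.coeff (Finsupp.equivFunOnFinite.symm (fun _ : V => 2))
      ((∏ h ∈ L, (if ε h then (1 : MvPolynomial V ℤ) else -1)) *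
        ∏ h, (if ε h then (MvPolynomial.X (f h) : MvPolynomial V ℤ) else 1)) =
      (∏ h ∈ L, (if ε h then (1 : ℤ) else -1)) * (if Bal f ε then 1 else 0) := by
    intro ε
    have h2 : (∏ h ∈ L, (if ε h then (1 : MvPolynomial V ℤ) else -1)) =
        MvPolynomial.C (∏ h ∈ L, (if ε h then (1 : ℤ) else -1)) := by
      rw [map_prod]
      refine Finset.prod_congr rfl fun h _ => ?_
      split_ifs <;> simp
    rw [h2, MvPolynomial.coeff_C_mul, coeff_prod]
  simp only [h1, Finset.sum_filter, mul_ite, mul_one, mul_zero]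
  refine Finset.sum_congr rfl fun ε _ => ?_
  split_ifs <;> rfl

/-- The square of the coefficient. -/
theorem coeff_sq (f : H → V) (σ : Equiv.Perm H) (hσ : ∀ h, σ (σ h) = h)
    (L : Finset H) (hL : ∀ h, h ∈ L ↔ σ h ∉ L) :
    (MvPolynomial.coeff (Finsupp.equivFunOnFinite.symm (fun _ : V => 2))
      (∏ h ∈ L, ((MvPolynomial.X (f h) : MvPolynomial V ℤ) - MvPolynomial.X (f (σ h))))) ^ 2 =
      ∑ ε ∈ Finset.univ.filter (fun ε : H → Bool => Bal f ε),
        ∑ ε' ∈ Finset.univ.filter (fun ε : H → Bool => Bal f ε),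
        (if (∀ h, ε (σ h) = !ε h) ∧ (∀ h, ε' (σ h) = !ε' h) then
          ∏ h, (if ε h && !ε' h then (-1 : ℤ) else 1) else 0) := by
  rw [coeff_eq f σ hσ L hL, sq, Finset.sum_mul_sum]
  refine Finset.sum_congr rfl fun ε _ => Finset.sum_congr rfl fun ε' _ => ?_
  by_cases h1 : ∀ h, ε (σ h) = !ε h
  · by_cases h2 : ∀ h, ε' (σ h) = !ε' h
    · rw [if_pos h1, if_pos h2, if_pos ⟨h1, h2⟩, ← Finset.prod_mul_distrib,
        prod_split σ hσ L hL]
      refine Finset.prod_congr rfl fun h _ => ?_
      rw [h1, h2]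
      cases ε h <;> cases ε' h <;> simp
    · rw [if_neg h2, mul_zero, if_neg (fun h => h2 h.2)]
  · rw [if_neg h1, zero_mul, if_neg (fun h => h1 h.1)]

end Pool.Agent.MP94c
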