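import Pool.Agent.Lib.MP_94c361_co_M.Exp
import Pool.Agent.Lib.MP_94c361_co_M.Cnt
import Pool.Agent.Lib.MP_94c361_co_M.Beta

/-!
# MP_94c361_co: the second moment as an integral
-/

set_option autoImplicit false

open scoped BigOperators

namespace Pool.Agent.MP94c

variable {n : ℕ}

theorem card_vertex (ε : Fin n × Fin 4 → Bool) (v : Fin n) :
    (Finset.univ.filter (fun h : Fin n × Fin 4 => h.1 = v ∧ ε h = true)).card =
      (Finset.univ.filter (fun i : Fin 4 => ε (v, i) = true)).card := by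
  refine (Finset.card_bij (fun (i : Fin 4) _ => ((v, i) : Fin n × Fin 4)) ?_ ?_ ?_).symm
  · intro i hi
    exact Finset.mem_filter.2 ⟨Finset.mem_univ _, rfl, (Finset.mem_filter.1 hi).2⟩
  · intro i _ j _ hij
    exact (Prod.mk.inj hij).2
  · rintro ⟨u, i⟩ hh
    obtain ⟨h1, h2⟩ := (Finset.mem_filter.1 hh).2
    simp only at h1
    subst h1
    exact ⟨i, Finset.mem_filter.2 ⟨Finset.mem_univ _, h2⟩, rfl⟩

theorem card_true (ε : Fin n × Fin 4 → Bool) (hε : Bal (Prod.fst : Fin n × Fin 4 → Fin n) ε) :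
    (Finset.univ.filter (fun h => ε h = true)).card = 2 * n := by
  rw [Finset.card_eq_sum_card_fiberwise (f := (Prod.fst : Fin n × Fin 4 → Fin n))
    (t := Finset.univ) (fun _ _ => Finset.mem_coe.2 (Finset.mem_univ _))]
  have h1 : ∀ v ∈ (Finset.univ : Finset (Fin n)),
      ((Finset.univ.filter (fun h : Fin n × Fin 4 => ε h = true)).filter
        (fun h => h.1 = v)).card = 2 := by
    intro v _
    rw [Finset.filter_filter, ← hε v]
    exact congrArg _ (Finset.filter_congr fun h _ => and_comm)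
  rw [Finset.sum_congr rfl h1]
  simp [mul_comm]

theorem counts (ε ε' : Fin n × Fin 4 → Bool)
    (hε : Bal (Prod.fst : Fin n × Fin 4 → Fin n) ε)
    (hε' : Bal (Prod.fst : Fin n × Fin 4 → Fin n) ε') :
    ∃ a b : ℕ, a + b = 2 * n ∧
      (Finset.univ.filter (fun h => ε h = true ∧ ε' h = true)).card = a ∧
      (Finset.univ.filter (fun h => ε h = false ∧ ε' h = false)).card = a ∧
      (Finset.univ.filter (fun h => ε h = true ∧ ε' h = false)).card = b ∧
      (Finset.univ.filter (fun h => ε h = false ∧ ε' h = true)).card = b := by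
  have s1 : (Finset.univ.filter (fun h => ε h = true ∧ ε' h = true)).card +
      (Finset.univ.filter (fun h => ε h = true ∧ ε' h = false)).card = 2 * n := by
    rw [← card_true ε hε, ← Finset.card_filter_add_card_filter_not (s := Finset.univ.filter
      (fun h => ε h = true)) (fun h => ε' h = true), Finset.filter_filter, Finset.filter_filter]
    simp only [Bool.not_eq_true]
  have s2 : (Finset.univ.filter (fun h => ε h = true ∧ ε' h = true)).card +
      (Finset.univ.filter (fun h => ε h = false ∧ ε' h = true)).card = 2 * n := by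
    rw [← card_true ε' hε', ← Finset.card_filter_add_card_filter_not (s := Finset.univ.filter
      (fun h => ε' h = true)) (fun h => ε h = true), Finset.filter_filter, Finset.filter_filter]
    simp only [Bool.not_eq_true, and_comm]
  have s3 : 2 * n + ((Finset.univ.filter (fun h => ε h = false ∧ ε' h = true)).card +
      (Finset.univ.filter (fun h => ε h = false ∧ ε' h = false)).card) = n * 4 := by
    have h1 : (Finset.univ.filter (fun h => ε h = true)).card +
        (Finset.univ.filter (fun h => ¬ ε h = true)).card = n * 4 := by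
      rw [Finset.card_filter_add_card_filter_not]
      simp
    rw [card_true ε hε, ← Finset.card_filter_add_card_filter_not (s := Finset.univ.filter
      (fun h => ¬ ε h = true)) (fun h => ε' h = true), Finset.filter_filter,
      Finset.filter_filter] at h1
    simp only [Bool.not_eq_true] at h1
    exact h1
  refine ⟨_, _, s1, rfl, ?_, rfl, ?_⟩ <;> omega

/-- The pairings of the half-edges. -/
def pairings (n : ℕ) : Finset (Equiv.Perm (Fin n × Fin 4)) :=
  Finset.univ.filter (fun σ => ∀ h, σ (σ h) = h ∧ σ h ≠ h)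

/-- The half-edges which come before their partner in the lexicographic order. -/
def lower (σ : Equiv.Perm (Fin n × Fin 4)) : Finset (Fin n × Fin 4) :=
  Finset.univ.filter (fun h => toLex h < toLex (σ h))

/-- The graph polynomial of the multigraph of a pairing. -/
noncomputable def gpoly (σ : Equiv.Perm (Fin n × Fin 4)) : MvPolynomial (Fin n) ℤ :=
  ∏ h ∈ lower σ, (MvPolynomial.X h.1 - MvPolynomial.X (σ h).1)

/-- The coefficient of the product of the squares of the variables. -/
noncomputable def atc (σ : Equiv.Perm (Fin n × Fin 4)) : ℤ :=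
  MvPolynomial.coeff (Finsupp.equivFunOnFinite.symm (fun _ : Fin n => 2)) (gpoly σ)

theorem lower_iff {σ : Equiv.Perm (Fin n × Fin 4)} (hσ : σ ∈ pairings n) (h : Fin n × Fin 4) :
    h ∈ lower σ ↔ σ h ∉ lower σ := by
  have h1 := (Finset.mem_filter.1 hσ).2 h
  unfold lower
  simp only [Finset.mem_filter, Finset.mem_univ, true_and, h1.1, not_lt]
  constructor
  · intro h2
    exact h2.le
  · intro h2
    refine lt_of_le_of_ne h2 fun h3 => h1.2 ?_
    exact (toLex.injective h3).symm

theorem sum_sq (n : ℕ) :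
    ∑ σ ∈ pairings n, (atc σ) ^ 2 =
      ∑ ε ∈ Finset.univ.filter (fun ε : Fin n × Fin 4 → Bool =>
          Bal (Prod.fst : Fin n × Fin 4 → Fin n) ε),
        ∑ ε' ∈ Finset.univ.filter (fun ε : Fin n × Fin 4 → Bool =>
          Bal (Prod.fst : Fin n × Fin 4 → Fin n) ε),
        ((Finset.univ.filter (fun σ : Equiv.Perm (Fin n × Fin 4) => (∀ h, σ (σ h) = h) ∧
          (∀ h, ε (σ h) = !ε h) ∧ (∀ h, ε' (σ h) = !ε' h))).card : ℤ) *
          ∏ h, (if ε h && !ε' h then (-1 : ℤ) else 1) := by
  have h1 : ∀ σ ∈ pairings n, (atc σ) ^ 2 =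
      ∑ ε ∈ Finset.univ.filter (fun ε : Fin n × Fin 4 → Bool =>
          Bal (Prod.fst : Fin n × Fin 4 → Fin n) ε),
        ∑ ε' ∈ Finset.univ.filter (fun ε : Fin n × Fin 4 → Bool =>
          Bal (Prod.fst : Fin n × Fin 4 → Fin n) ε),
        (if (∀ h, ε (σ h) = !ε h) ∧ (∀ h, ε' (σ h) = !ε' h) then
          ∏ h, (if ε h && !ε' h then (-1 : ℤ) else 1) else 0) := fun σ hσ =>
    coeff_sq (Prod.fst : Fin n × Fin 4 → Fin n) σ (fun h => ((Finset.mem_filter.1 hσ).2 h).1)
      (lower σ) (lower_iff hσ)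
  rw [Finset.sum_congr rfl h1, Finset.sum_comm]
  refine Finset.sum_congr rfl fun ε _ => ?_
  rw [Finset.sum_comm]
  refine Finset.sum_congr rfl fun ε' _ => ?_
  rw [← Finset.sum_filter, Finset.sum_const, nsmul_eq_mul]
  congr 2
  refine congrArg _ ?_
  ext σ
  unfold pairings
  simp only [Finset.mem_filter, Finset.mem_univ, true_and]
  constructor
  · rintro ⟨h2, h3, h4⟩
    exact ⟨fun h => (h2 h).1, h3, h4⟩
  · rintro ⟨h2, h3, h4⟩
    refine ⟨fun h => ⟨h2 h, fun h5 => ?_⟩, h3, h4⟩
    have h6 := h3 h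
    rw [h5] at h6
    cases h7 : ε h <;> simp [h7] at h6

theorem term_eq (ε ε' : Fin n × Fin 4 → Bool)
    (hε : Bal (Prod.fst : Fin n × Fin 4 → Fin n) ε)
    (hε' : Bal (Prod.fst : Fin n × Fin 4 → Fin n) ε') :
    (((Finset.univ.filter (fun σ : Equiv.Perm (Fin n × Fin 4) => (∀ h, σ (σ h) = h) ∧
          (∀ h, ε (σ h) = !ε h) ∧ (∀ h, ε' (σ h) = !ε' h))).card : ℝ) *
          ∏ h, (if ε h && !ε' h then (-1 : ℝ) else 1)) =
      ((2 * n + 1).factorial : ℝ) * ∫ t in (0 : ℝ)..1, ∏ h, w t (ε h) (ε' h) := by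
  obtain ⟨a, b, hab, h11, h00, h10, h01⟩ := counts ε ε' hε hε'
  have h1 : ∀ t : ℝ, ∏ h, w t (ε h) (ε' h) = (-1) ^ b * (t ^ a * (1 - t) ^ b) := by
    intro t
    unfold w
    rw [Finset.prod_mul_distrib, ← Finset.prod_filter, ← Finset.prod_filter, Finset.prod_const,
      Finset.prod_const]
    simp only [Bool.and_eq_true, Bool.not_eq_true']
    rw [h11, h10]
    have h2 : t - 1 = (-1) * (1 - t) := by ring
    rw [h2, mul_pow]
    ring
  have h2 : ∏ h, (if ε h && !ε' h then (-1 : ℝ) else 1) = (-1) ^ b := by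
    rw [← Finset.prod_filter, Finset.prod_const]
    simp only [Bool.and_eq_true, Bool.not_eq_true']
    rw [h10]
  simp only [h1]
  rw [h2, intervalIntegral.integral_const_mul, beta_nat, hab, card_pairs ε ε' a b h11 h00 h10 h01]
  have h3 : ((2 * n + 1).factorial : ℝ) ≠ 0 := by positivity
  push_cast
  field_simp

theorem factor (n : ℕ) (t : ℝ) :
    ∑ ε ∈ Finset.univ.filter (fun ε : Fin n × Fin 4 → Bool =>
          Bal (Prod.fst : Fin n × Fin 4 → Fin n) ε),
        ∑ ε' ∈ Finset.univ.filter (fun ε : Fin n × Fin 4 → Bool =>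
          Bal (Prod.fst : Fin n × Fin 4 → Fin n) ε),
        ∏ h, w t (ε h) (ε' h) = (6 * (1 - 6 * t + 6 * t ^ 2)) ^ n := by
  have h1 : (6 * (1 - 6 * t + 6 * t ^ 2)) ^ n =
      ∏ _v : Fin n, ∑ g ∈ two ×ˢ two, ∏ i, w t (g.1 i) (g.2 i) := by
    rw [Finset.prod_const, vertex_sum]
    simp
  rw [h1, Finset.prod_univ_sum, ← Finset.sum_product']
  refine Finset.sum_bij' (fun e _ => fun v => (fun i => e.1 (v, i), fun i => e.2 (v, i)))
    (fun g _ => (fun h => (g h.1).1 h.2, fun h => (g h.1).2 h.2)) ?_ ?_ ?_ ?_ ?_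
  · intro e he
    obtain ⟨h2, h3⟩ := Finset.mem_product.1 he
    rw [Fintype.mem_piFinset]
    intro v
    refine Finset.mem_product.2 ⟨?_, ?_⟩
    · refine Finset.mem_filter.2 ⟨Finset.mem_univ _, ?_⟩
      rw [← (Finset.mem_filter.1 h2).2 v, card_vertex]
    · refine Finset.mem_filter.2 ⟨Finset.mem_univ _, ?_⟩
      rw [← (Finset.mem_filter.1 h3).2 v, card_vertex]
  · intro g hg
    rw [Fintype.mem_piFinset] at hg
    refine Finset.mem_product.2 ⟨?_, ?_⟩
    · refine Finset.mem_filter.2 ⟨Finset.mem_univ _, fun v => ?_⟩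
      rw [card_vertex]
      exact (Finset.mem_filter.1 (Finset.mem_product.1 (hg v)).1).2
    · refine Finset.mem_filter.2 ⟨Finset.mem_univ _, fun v => ?_⟩
      rw [card_vertex]
      exact (Finset.mem_filter.1 (Finset.mem_product.1 (hg v)).2).2
  · intro e _
    rfl
  · intro g _
    rfl
  · intro e _
    rw [Fintype.prod_prod_type]

/-- The second moment of the coefficient, summed over all pairings. -/
theorem second_moment (n : ℕ) :
    ((∑ σ ∈ pairings n, (atc σ) ^ 2 : ℤ) : ℝ) =
      6 ^ n * ((2 * n + 1).factorial : ℝ) *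
        ∫ t in (0 : ℝ)..1, (1 - 6 * t + 6 * t ^ 2) ^ n := by
  rw [sum_sq]
  push_cast
  have h1 : ∀ ε ∈ Finset.univ.filter (fun ε : Fin n × Fin 4 → Bool =>
          Bal (Prod.fst : Fin n × Fin 4 → Fin n) ε),
      ∑ ε' ∈ Finset.univ.filter (fun ε : Fin n × Fin 4 → Bool =>
          Bal (Prod.fst : Fin n × Fin 4 → Fin n) ε),
        (((Finset.univ.filter (fun σ : Equiv.Perm (Fin n × Fin 4) => (∀ h, σ (σ h) = h) ∧
          (∀ h, ε (σ h) = !ε h) ∧ (∀ h, ε' (σ h) = !ε' h))).card : ℝ) *
          ∏ h, (if ε h && !ε' h then (-1 : ℝ) else 1)) =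
      ∫ t in (0 : ℝ)..1, ∑ ε' ∈ Finset.univ.filter (fun ε : Fin n × Fin 4 → Bool =>
          Bal (Prod.fst : Fin n × Fin 4 → Fin n) ε),
        ((2 * n + 1).factorial : ℝ) * ∏ h, w t (ε h) (ε' h) := by
    intro ε hε
    rw [intervalIntegral.integral_finsetSum]
    · refine Finset.sum_congr rfl fun ε' hε' => ?_
      rw [term_eq ε ε' (Finset.mem_filter.1 hε).2 (Finset.mem_filter.1 hε').2,
        intervalIntegral.integral_const_mul]
    · intro ε' _
      refine Continuous.intervalIntegrable ?_ _ _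
      refine continuous_const.mul (continuous_finsetProd _ fun h _ => ?_)
      unfold w
      split_ifs <;> fun_prop
  rw [Finset.sum_congr rfl h1, ← intervalIntegral.integral_finsetSum]
  · rw [← intervalIntegral.integral_const_mul]
    refine intervalIntegral.integral_congr fun t _ => ?_
    simp only [← Finset.mul_sum]
    rw [factor n t, mul_pow]
    ring
  · intro ε _
    refine Continuous.intervalIntegrable ?_ _ _
    refine continuous_finsetSum _ fun ε' _ => ?_
    refine continuous_const.mul (continuous_finsetProd _ fun h _ => ?_)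
    unfold w
    split_ifs <;> fun_prop

end Pool.Agent.MP94c
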