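import Mathlib

/-!
# MP_94c361_co: the ratio of the second moment to the mean number of Eulerian orientations
-/

set_option autoImplicit false

open scoped BigOperators

namespace Pool.Agent.MP94c

/-- The ratio. -/
noncomputable def ratio (n : ℕ) : ℝ :=
  (2 * n + 1) * ∫ t in (0 : ℝ)..1, (1 - 6 * t + 6 * t ^ 2) ^ n

theorem ratio_zero : ratio 0 = 1 := by
  unfold ratio
  simp

theorem ratio_succ (n : ℕ) :
    ratio (n + 1) = 1 - ((n : ℝ) + 1) / (2 * n + 1) * ratio n := by
  have h1 : ∀ t ∈ Set.uIcc (0 : ℝ) 1,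
      HasDerivAt (fun t : ℝ => (2 * t - 1) * (1 - 6 * t + 6 * t ^ 2) ^ (n + 1))
        ((4 * (n : ℝ) + 6) * (1 - 6 * t + 6 * t ^ 2) ^ (n + 1) +
          (2 * (n : ℝ) + 2) * (1 - 6 * t + 6 * t ^ 2) ^ n) t := by
    intro t _
    have h2 : HasDerivAt (fun t : ℝ => 2 * t - 1) 2 t := by
      simpa using ((hasDerivAt_id t).const_mul 2).sub_const 1
    have h3 : HasDerivAt (fun t : ℝ => 1 - 6 * t + 6 * t ^ 2) (-6 + 12 * t) t := by
      have h4 : HasDerivAt (fun t : ℝ => 1 - 6 * t) (-6) t := by
        simpa using ((hasDerivAt_id t).const_mul 6).const_sub 1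
      have h5 : HasDerivAt (fun t : ℝ => 6 * t ^ 2) (12 * t) t := by
        have h6 := (hasDerivAt_pow 2 t).const_mul (6 : ℝ)
        refine h6.congr_deriv ?_
        simp
        ring
      exact h4.add h5
    have h7 := h2.fun_mul (h3.fun_pow (n + 1))
    refine h7.congr_deriv ?_
    rw [Nat.add_sub_cancel]
    push_cast
    ring
  have h2 := intervalIntegral.integral_eq_sub_of_hasDerivAt h1
    (Continuous.intervalIntegrable (by fun_prop) _ _)
  rw [intervalIntegral.integral_add (Continuous.intervalIntegrable (by fun_prop) _ _)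
    (Continuous.intervalIntegrable (by fun_prop) _ _),
    intervalIntegral.integral_const_mul, intervalIntegral.integral_const_mul] at h2
  have h3 : (2 * (1 : ℝ) - 1) * (1 - 6 * 1 + 6 * 1 ^ 2) ^ (n + 1) -
      (2 * 0 - 1) * (1 - 6 * 0 + 6 * 0 ^ 2) ^ (n + 1) = 2 := by
    norm_num
  rw [h3] at h2
  unfold ratio
  have h4 : (2 * (n : ℝ) + 1) ≠ 0 := by positivity
  rw [← mul_assoc, div_mul_cancel₀ _ h4]
  push_cast
  linarith

theorem ratio_bound (n : ℕ) : |ratio (n + 1) - 2 / 3| ≤ 1 / ((n : ℝ) + 1) := by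
  have r1 : ratio 1 = 0 := by
    have := ratio_succ 0
    rw [ratio_zero] at this
    rw [this]
    norm_num
  have r2 : ratio 2 = 1 := by
    have := ratio_succ 1
    rw [r1] at this
    rw [this]
    norm_num
  have r3 : ratio 3 = 2 / 5 := by
    have := ratio_succ 2
    rw [r2] at this
    rw [this]
    norm_num
  rcases Nat.lt_or_ge n 3 with h | h
  · interval_cases n
    · rw [r1]
      norm_num [abs_le]
    · rw [r2]
      norm_num [abs_le]
    · rw [r3]
      norm_num [abs_le]
  · induction n, h using Nat.le_induction with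
    | base =>
      have := ratio_succ 3
      rw [r3] at this
      rw [this]
      norm_num [abs_le]
    | succ n hn ih =>
      have h1 := ratio_succ (n + 1)
      have hn' : (3 : ℝ) ≤ n := by exact_mod_cast hn
      have h2 : ratio (n + 1 + 1) - 2 / 3 =
          -((((n : ℝ) + 2) / (2 * n + 3)) * (ratio (n + 1) - 2 / 3)) -
            1 / (3 * (2 * n + 3)) := by
        rw [h1]
        push_cast
        have h3 : (2 * (n : ℝ) + 3) ≠ 0 := by positivity
        have h4 : (2 * ((n : ℝ) + 1) + 1) = 2 * n + 3 := by ring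
        rw [h4]
        field_simp
        ring
      have h5 : |ratio (n + 1 + 1) - 2 / 3| ≤
          (((n : ℝ) + 2) / (2 * n + 3)) * (1 / ((n : ℝ) + 1)) + 1 / (3 * (2 * n + 3)) := by
        rw [h2]
        refine (abs_sub _ _).trans ?_
        rw [abs_neg, abs_mul, abs_of_nonneg (a := ((n : ℝ) + 2) / (2 * n + 3)) (by positivity),
          abs_of_nonneg (a := 1 / (3 * (2 * (n : ℝ) + 3))) (by positivity)]
        have h6 := mul_le_mul_of_nonneg_left ih
          (show (0 : ℝ) ≤ ((n : ℝ) + 2) / (2 * n + 3) by positivity)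
        linarith
      refine h5.trans ?_
      push_cast
      rw [div_mul_div_comm, div_add_div _ _ (by positivity) (by positivity),
        div_le_div_iff₀ (by positivity) (by positivity)]
      nlinarith [mul_nonneg (show (0 : ℝ) ≤ (n : ℝ) - 3 by linarith)
        (show (0 : ℝ) ≤ (n : ℝ) by linarith), mul_nonneg (mul_nonneg
        (show (0 : ℝ) ≤ (n : ℝ) - 3 by linarith) (show (0 : ℝ) ≤ (n : ℝ) by linarith))
        (show (0 : ℝ) ≤ (n : ℝ) by linarith)]

end Pool.Agent.MP94c
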